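import Pool.Agent.P8H34.MB.Stm

/-! Project MB (helper34), package CVR, by helper86. -/

set_option autoImplicit false

open Pool.Agent.Y167 (cone)
open Pool.Agent.N110.CC Pool.Agent.N165.KM

namespace Pool.Agent.P8H86.MB

open Pool.Agent.P8H34.MB

/-! ### cones -/

section cones

variable {n : ℕ}

theorem cone_zero (S : Finset (Fin n → ℝ)) : (0 : Fin n → ℝ) ∈ cone S :=
  ⟨fun _ => 0, fun _ => le_rfl, by simp⟩

theorem cone_add {S : Finset (Fin n → ℝ)} {x y : Fin n → ℝ} (hx : x ∈ cone S) (hy : y ∈ cone S) :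
    x + y ∈ cone S := by
  obtain ⟨c, hc, rfl⟩ := hx
  obtain ⟨c', hc', rfl⟩ := hy
  refine ⟨fun a => c a + c' a, fun a => add_nonneg (hc a) (hc' a), ?_⟩
  rw [← Finset.sum_add_distrib]
  exact Finset.sum_congr rfl fun a _ => (add_smul _ _ _).symm

theorem cone_smul {S : Finset (Fin n → ℝ)} {x : Fin n → ℝ} (hx : x ∈ cone S) {t : ℝ}
    (ht : 0 ≤ t) : t • x ∈ cone S := by
  obtain ⟨c, hc, rfl⟩ := hx
  refine ⟨fun a => t * c a, fun a => mul_nonneg ht (hc a), ?_⟩
  rw [Finset.smul_sum]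
  exact Finset.sum_congr rfl fun a _ => smul_smul _ _ _

theorem cone_gen {S : Finset (Fin n → ℝ)} {a : Fin n → ℝ} (ha : a ∈ S) : a ∈ cone S := by
  classical
  refine ⟨fun b => if b = a then 1 else 0, fun b => by
    show (0 : ℝ) ≤ if b = a then 1 else 0
    split_ifs <;> norm_num, ?_⟩
  simp [ite_smul, ha]

theorem cone_sum {ι : Type} {S : Finset (Fin n → ℝ)} (T : Finset ι) {f : ι → Fin n → ℝ}
    (hf : ∀ i ∈ T, f i ∈ cone S) : ∑ i ∈ T, f i ∈ cone S := by
  classical
  induction T using Finset.induction_on with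
  | empty => simpa using cone_zero S
  | insert a T ha ih =>
    rw [Finset.sum_insert ha]
    exact cone_add (hf a (Finset.mem_insert_self _ _))
      (ih fun i hi => hf i (Finset.mem_insert_of_mem hi))

end cones

/-! ### the orthant of a basis -/

section orth

variable {n : ℕ} {ι : Type} [Fintype ι]

theorem cont_repr (b : Module.Basis ι ℝ (Fin n → ℝ)) (j : ι) :
    Continuous fun x => b.repr x j := by
  have h : Continuous (b.coord j) := LinearMap.continuous_of_finiteDimensional _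
  exact h

theorem orth_pc (b : Module.Basis ι ℝ (Fin n → ℝ)) :
    PC {x : Fin n → ℝ | ∀ j, 0 ≤ b.repr x j} := by
  refine ⟨?_, ?_, ?_, ?_⟩
  · have : {x : Fin n → ℝ | ∀ j, 0 ≤ b.repr x j} = ⋂ j, {x | 0 ≤ b.repr x j} := by
      ext x
      simp
    rw [this]
    exact isClosed_iInter fun j => isClosed_le continuous_const (cont_repr b j)
  · intro x hx y hy j
    rw [map_add, Finsupp.add_apply]
    exact add_nonneg (hx j) (hy j)
  · intro t ht x hx j
    rw [map_smul, Finsupp.smul_apply, smul_eq_mul]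
    exact mul_nonneg ht (hx j)
  · intro x hx hx'
    rw [← b.sum_repr x]
    refine Finset.sum_eq_zero fun j _ => ?_
    have h1 := hx j
    have h2 := hx' j
    rw [map_neg, Finsupp.neg_apply] at h2
    have : b.repr x j = 0 := by linarith
    rw [this, zero_smul]

theorem orth_int (b : Module.Basis ι ℝ (Fin n → ℝ)) (x : Fin n → ℝ) :
    x ∈ interior {x : Fin n → ℝ | ∀ j, 0 ≤ b.repr x j} ↔ ∀ j, 0 < b.repr x j := by
  constructor
  · intro hx j
    rw [mem_interior_iff_mem_nhds] at hx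
    have hc : Filter.Tendsto (fun ε : ℝ => x - ε • b j) (nhdsWithin 0 (Set.Ioi 0)) (nhds x) := by
      have h1 : Continuous (fun ε : ℝ => x - ε • b j) := by fun_prop
      have h2 := h1.tendsto 0
      simp only [zero_smul, sub_zero] at h2
      exact h2.mono_left nhdsWithin_le_nhds
    obtain ⟨ε, hε, hε0⟩ := ((hc.eventually hx).and self_mem_nhdsWithin).exists
    have h3 := hε j
    rw [map_sub, map_smul, Finsupp.sub_apply, Finsupp.smul_apply, b.repr_self,
      Finsupp.single_eq_same, smul_eq_mul, mul_one] at h3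
    have : (0 : ℝ) < ε := hε0
    linarith
  · intro hx
    have ho : IsOpen {x : Fin n → ℝ | ∀ j, 0 < b.repr x j} := by
      have : {x : Fin n → ℝ | ∀ j, 0 < b.repr x j} = ⋂ j, {x | 0 < b.repr x j} := by
        ext x
        simp
      rw [this]
      exact isOpen_iInter_of_finite fun j => isOpen_lt continuous_const (cont_repr b j)
    exact interior_maximal (fun y hy j => (hy j).le) ho hx

end orth

theorem comb_sum {ι : Type} {k ρ : ℕ} (s : Fin k → Fin ρ → ℤ) (T : Finset ι) (c : ι → ℝ)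
    (t : ι → Fin k → ℝ) : comb s (∑ j ∈ T, c j • t j) = ∑ j ∈ T, c j • comb s (t j) := by
  unfold comb
  funext i
  simp only [Finset.sum_apply, Pi.smul_apply, smul_eq_mul, Finset.sum_mul, Finset.mul_sum]
  rw [Finset.sum_comm]
  refine Finset.sum_congr rfl fun j _ => Finset.sum_congr rfl fun l _ => ?_
  ring

theorem repr_blk {b ρ : ℕ} {d : Fin b → ℕ} (e : Module.Basis (Ix d) ℝ (Fin ρ → ℝ)) (i : Fin b)
    (c : Fin (d i) → ℝ) (j : Fin (d i)) : e.repr (∑ j, c j • e ⟨i, j⟩) ⟨i, j⟩ = c j := by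
  classical
  rw [map_sum, Finsupp.finsetSum_apply, Finset.sum_eq_single j]
  · rw [map_smul, Finsupp.smul_apply, e.repr_self, Finsupp.single_eq_same, smul_eq_mul, mul_one]
  · intro j' _ hj
    rw [map_smul, Finsupp.smul_apply, e.repr_self, Finsupp.single_apply, if_neg, smul_zero]
    intro h
    apply hj
    simpa using h
  · intro h
    exact absurd (Finset.mem_univ j) h

theorem repr_blk0 {b ρ : ℕ} {d : Fin b → ℕ} (e : Module.Basis (Ix d) ℝ (Fin ρ → ℝ)) (i : Fin b)
    (c : Fin (d i) → ℝ) {p : Ix d} (hp : p.1 ≠ i) : e.repr (∑ j, c j • e ⟨i, j⟩) p = 0 := by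
  classical
  rw [map_sum, Finsupp.finsetSum_apply]
  refine Finset.sum_eq_zero fun j _ => ?_
  rw [map_smul, Finsupp.smul_apply, e.repr_self, Finsupp.single_apply, if_neg, smul_zero]
  intro h
  exact hp (congrArg Sigma.fst h).symm

theorem repr_G {r b ρ : ℕ} {d : Fin b → ℕ} {ℓ : Ix d → Frm r} {s : ∀ i, Fin (d i) → Fin ρ → ℤ}
    {G : (Fin r → ℤ) → ((Fin ρ → ℝ) →ₗ[ℝ] (Fin ρ → ℝ))} {e : Module.Basis (Ix d) ℝ (Fin ρ → ℝ)}
    (h : Dat d ℓ s G e) (v : Fin r → ℤ) (x : Fin ρ → ℝ) (p : Ix d) :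
    e.repr (G v x) p = Real.exp (ev (ℓ p) v) * e.repr x p := by
  have h1 : G v x = ∑ q, (Real.exp (ev (ℓ q) v) * e.repr x q) • e q := by
    conv_lhs => rw [← e.sum_repr x]
    rw [map_sum]
    refine Finset.sum_congr rfl fun q _ => ?_
    rw [map_smul, h.eig, smul_smul, mul_comm]
  rw [h1]
  exact congrFun (e.repr_sum_self fun q => Real.exp (ev (ℓ q) v) * e.repr x q) p

theorem cvr : S_CVR := by
  classical
  intro hCOV r b ρ d ℓ s G e h
  choose τ0 hτ0 using h.mem
  obtain ⟨τ, hτ⟩ : ∃ τ : ∀ i, Fin (d i) → Fin (d i) → ℝ,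
      ∀ i j, e ⟨i, j⟩ = comb (s i) (τ i j) := ⟨fun i j => τ0 ⟨i, j⟩, fun i j => hτ0 ⟨i, j⟩⟩
  have hne : ∀ i, Nonempty (Fin (d i)) := fun i => ⟨⟨0, by have := h.two i; omega⟩⟩
  have li : ∀ i, LinearIndependent ℝ (τ i) := by
    intro i
    rw [Fintype.linearIndependent_iff]
    intro g hg j
    have h1 : ∑ j, g j • e ⟨i, j⟩ = 0 := by
      have h2 := comb_sum (s i) Finset.univ g (τ i)
      rw [hg] at h2
      have h3 : comb (s i) (0 : Fin (d i) → ℝ) = 0 := by simp [comb]
      rw [h3] at h2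
      rw [h2]
      exact Finset.sum_congr rfl fun j _ => by rw [hτ i j]
    have h4 := repr_blk e i g j
    rw [h1] at h4
    simpa using h4.symm
  obtain ⟨β, hβ⟩ : ∃ β : ∀ i, Module.Basis (Fin (d i)) ℝ (Fin (d i) → ℝ),
      ∀ i j, β i j = τ i j := by
    refine ⟨fun i => haveI := hne i; basisOfLinearIndependentOfCardEqFinrank (li i) (by simp),
      fun i j => ?_⟩
    haveI := hne i
    rw [coe_basisOfLinearIndependentOfCardEqFinrank]
  have key : ∀ i t, comb (s i) t = ∑ j, (β i).repr t j • e ⟨i, j⟩ := by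
    intro i t
    conv_lhs => rw [← (β i).sum_repr t]
    rw [comb_sum]
    refine Finset.sum_congr rfl fun j _ => ?_
    rw [hβ, hτ i j]
  have r1 : ∀ i t j, e.repr (comb (s i) t) ⟨i, j⟩ = (β i).repr t j := by
    intro i t j
    rw [key]
    exact repr_blk e i _ j
  have r0 : ∀ i t (p : Ix d), p.1 ≠ i → e.repr (comb (s i) t) p = 0 := by
    intro i t p hp
    rw [key]
    exact repr_blk0 e i _ hp
  obtain ⟨B, hB⟩ := h.blk.bal
  have cov := fun i => hCOV (d i) {t | ∀ j, 0 ≤ (β i).repr t j} (orth_pc (β i))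
    {t | ∀ j k, 0 ≤ (β i).repr t j ∧ (β i).repr t j ≤ Real.exp B * (β i).repr t k}
    (by
      have : {t : Fin (d i) → ℝ | ∀ j k, 0 ≤ (β i).repr t j ∧
          (β i).repr t j ≤ Real.exp B * (β i).repr t k} =
          ⋂ j, ⋂ k, ({t | 0 ≤ (β i).repr t j} ∩
            {t | (β i).repr t j ≤ Real.exp B * (β i).repr t k}) := by
        ext x
        simp
      rw [this]
      refine isClosed_iInter fun j => isClosed_iInter fun k => ?_
      exact (isClosed_le continuous_const (cont_repr (β i) j)).inter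
        (isClosed_le (cont_repr (β i) j) (continuous_const.mul (cont_repr (β i) k))))
    (by
      intro t ht x hx j k
      have h1 := hx j k
      simp only [map_smul, Finsupp.smul_apply, smul_eq_mul]
      refine ⟨mul_nonneg ht.le h1.1, ?_⟩
      have h2 := mul_le_mul_of_nonneg_left h1.2 ht.le
      linarith)
    (by
      intro x hx hx0
      rw [orth_int]
      intro k
      by_contra hcon
      push Not at hcon
      apply hx0
      have h1 : ∀ j, (β i).repr x j = 0 := by
        intro j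
        have h2 := hx j k
        have h3 := mul_nonpos_of_nonneg_of_nonpos (Real.exp_pos B).le hcon
        linarith
      rw [← (β i).sum_repr x]
      exact Finset.sum_eq_zero fun j _ => by rw [h1, zero_smul])
  choose F hF hK using cov
  have hcomb : ∀ i, ∀ a ∈ F i, comb (s i) a ∈
      Finset.univ.biUnion (fun i => (F i).image (comb (s i))) := fun i a ha =>
    Finset.mem_biUnion.2 ⟨i, Finset.mem_univ i, Finset.mem_image_of_mem _ ha⟩
  have hblk : ∀ i, ∀ a ∈ F i, InBlk e i (comb (s i) a) := by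
    intro i a ha p
    have h1 := (orth_int (β i) a).1 (hF i a ha).1
    refine ⟨fun hp => ?_, fun hp => r0 i a p hp⟩
    obtain ⟨i', j⟩ := p
    have hp' : i' = i := hp
    subst hp'
    rw [r1]
    exact h1 j
  refine ⟨Finset.univ.biUnion (fun i => (F i).image (comb (s i))), ?_, ?_, ?_⟩
  · intro a ha
    obtain ⟨i, _, ha⟩ := Finset.mem_biUnion.1 ha
    obtain ⟨a, ha', rfl⟩ := Finset.mem_image.1 ha
    refine ⟨?_, i, hblk i a ha'⟩
    choose m hm using (hF i a ha').2
    intro k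
    refine ⟨∑ j, m j * s i j k, ?_⟩
    show (∑ j, a j • fun k => (s i j k : ℝ)) k = _
    rw [Finset.sum_apply]
    push_cast
    refine Finset.sum_congr rfl fun j _ => ?_
    rw [Pi.smul_apply, smul_eq_mul, hm j]
  · intro x hx
    obtain ⟨v, hv⟩ := hB fun p => Real.log (e.repr x p)
    refine ⟨v, ?_⟩
    obtain ⟨y, hy⟩ : ∃ y, y = G v x := ⟨_, rfl⟩
    have hyr : ∀ p, e.repr y p = Real.exp (ev (ℓ p) v) * e.repr x p := fun p => by
      rw [hy]; exact repr_G h v x p
    rw [← hy]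
    have hsum : y = ∑ i, comb (s i) (∑ j, e.repr y ⟨i, j⟩ • β i j) := by
      conv_lhs => rw [← e.sum_repr y]
      rw [Fintype.sum_sigma]
      refine Finset.sum_congr rfl fun i _ => ?_
      rw [key]
      refine Finset.sum_congr rfl fun j _ => ?_
      rw [congrFun ((β i).repr_sum_self fun j => e.repr y ⟨i, j⟩) j]
    rw [hsum]
    refine cone_sum _ fun i _ => ?_
    have ht : (∑ j, e.repr y ⟨i, j⟩ • β i j) ∈ cone (F i) := by
      refine hK i _ fun j k => ?_
      rw [congrFun ((β i).repr_sum_self fun j => e.repr y ⟨i, j⟩) j,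
        congrFun ((β i).repr_sum_self fun j => e.repr y ⟨i, j⟩) k, hyr, hyr]
      refine ⟨(mul_pos (Real.exp_pos _) (hx _)).le, ?_⟩
      have h1 := hv ⟨i, j⟩ ⟨i, k⟩ rfl
      have h2 := Real.exp_le_exp.2 h1
      rw [Real.exp_add, Real.exp_add, Real.exp_add, Real.exp_log (hx _),
        Real.exp_log (hx _)] at h2
      calc Real.exp (ev (ℓ ⟨i, j⟩) v) * e.repr x ⟨i, j⟩ =
          e.repr x ⟨i, j⟩ * Real.exp (ev (ℓ ⟨i, j⟩) v) := mul_comm _ _
        _ ≤ e.repr x ⟨i, k⟩ * Real.exp (ev (ℓ ⟨i, k⟩) v) * Real.exp B := h2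
        _ = Real.exp B * (Real.exp (ev (ℓ ⟨i, k⟩) v) * e.repr x ⟨i, k⟩) := by ring
    obtain ⟨c, hc, ht⟩ := ht
    rw [ht, comb_sum]
    exact cone_sum _ fun a ha => cone_smul (cone_gen (hcomb i a ha)) (hc a)
  · intro i
    have hB0 : 0 ≤ B := by
      obtain ⟨v, hv⟩ := hB fun _ => 0
      obtain ⟨j⟩ := hne i
      have := hv ⟨i, j⟩ ⟨i, j⟩ rfl
      linarith
    have ht : (∑ j, (1 : ℝ) • β i j) ∈ cone (F i) := by
      refine hK i _ fun j k => ?_
      rw [congrFun ((β i).repr_sum_self fun _ => (1 : ℝ)) j,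
        congrFun ((β i).repr_sum_self fun _ => (1 : ℝ)) k]
      exact ⟨zero_le_one, by rw [mul_one]; exact Real.one_le_exp hB0⟩
    have hne' : (F i).Nonempty := by
      by_contra hcon
      rw [Finset.not_nonempty_iff_eq_empty] at hcon
      obtain ⟨c, _, hc⟩ := ht
      rw [hcon, Finset.sum_empty] at hc
      obtain ⟨j⟩ := hne i
      have h1 := congrFun ((β i).repr_sum_self fun _ => (1 : ℝ)) j
      rw [hc, map_zero] at h1
      exact zero_ne_one h1
    obtain ⟨a, ha⟩ := hne'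
    exact ⟨_, hcomb i a ha, hblk i a ha⟩

theorem t_CVR : S_CVR := cvr

end Pool.Agent.P8H86.MB


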